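import Pool.Agent.H.MP_916a8b_co.F

set_option autoImplicit false
open Finset Filter Topology Polynomial

namespace Pool.Agent.Results.MP_916a8b_co.Exists

/-- A graph property: a class of graphs closed under isomorphism. -/
def IsProperty (P : (V : Type) → SimpleGraph V → Prop) : Prop :=
  ∀ (V W : Type) (G : SimpleGraph V) (H : SimpleGraph W), Nonempty (G ≃g H) → (P V G ↔ P W H)

/-- Number of partitions of the vertex set into exactly `i` blocks, each inducing a graph in `P`. -/
noncomputable def h (P : (V : Type) → SimpleGraph V → Prop) {n : ℕ} (G : SimpleGraph (Fin n))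
    (i : ℕ) : ℕ :=
  Nat.card {π : Finpartition (univ : Finset (Fin n)) //
    π.parts.card = i ∧ ∀ B ∈ π.parts, P _ (G.induce (B : Set (Fin n)))}

/-- The Harary polynomial. -/
noncomputable def harary (P : (V : Type) → SimpleGraph V → Prop) {n : ℕ}
    (G : SimpleGraph (Fin n)) : ℤ[X] :=
  ∑ i ∈ range (n + 1), C (h P G i : ℤ) * descPochhammer ℤ i

/-- `G` has no mate: every finite graph with the same polynomial is isomorphic to `G`. -/
def IsUnique (P : (V : Type) → SimpleGraph V → Prop) {n : ℕ} (G : SimpleGraph (Fin n)) : Prop :=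
  ∀ (m : ℕ) (H : SimpleGraph (Fin m)), harary P G = harary P H → Nonempty (G ≃g H)

open Pool.Agent.H.Har in
theorem result : ∃ P : (V : Type) → SimpleGraph V → Prop, IsProperty P ∧
    Tendsto (fun n : ℕ => (Nat.card {G : SimpleGraph (Fin n) // IsUnique P G} : ℝ) /
      (2 : ℝ) ^ (n.choose 2)) atTop (𝓝 1) := by
  classical
  obtain ⟨ω, hω⟩ := main
  have e : ∀ {n : ℕ} (G : SimpleGraph (Fin n)), h (PP ω) G = hc (memS ω G) := by
    intro n G
    funext i
    rw [h, Nat.card_eq_fintype_card, Fintype.card_subtype, hc]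
    simp only [PP_induce]
  refine ⟨PP ω, fun V W G H ⟨e⟩ => PP_iso ω V W G H e, hω.congr fun n => ?_⟩
  rw [Nat.card_eq_fintype_card, Fintype.card_subtype]
  congr 3
  ext G
  simp only [mem_filter, mem_univ, true_and]
  refine forall₂_congr fun m H => imp_congr_left ⟨fun a => ?_, fun a => ?_⟩
  · rw [harary, harary, e, e, a]
    have a1 := hc_top _ (memS_one ω G)
    have a2 := hc_top _ (memS_one ω H)
    obtain rfl : m = n := by
      by_contra hne
      rcases lt_or_gt_of_ne hne with c | c
      · rw [a, hc_zero _ _ c] at a1; omega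
      · rw [← a, hc_zero _ _ c] at a2; omega
    rfl
  · rw [harary, harary, e, e] at a
    exact coeff_eq n m _ _ (hc_zero _) (hc_zero _) a

end Pool.Agent.Results.MP_916a8b_co.Exists
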